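import Pool.Agent.GTO.StmtsB

/-! Row CLD of squad GTO: collinearity as a determinant. -/

namespace Pool.Agent.GTO.H5

open Pool.Agent.GTO

theorem cld : CldStmt := by
  refine ⟨?_, ?_⟩
  · intro p q hpq h
    apply hpq
    have h0 := congrFun h 0
    have h1 := congrFun h 1
    simp [cr, hom] at h0 h1
    ext i
    fin_cases i
    · simp; linarith
    · simp; linarith
  · intro p q r
    by_cases hpq : p = q
    · subst hpq
      constructor
      · intro _
        simp only [dt, hom, Matrix.cons_val_zero, Matrix.cons_val_one, Matrix.cons_val]
        ring
      · intro _
        have : ({p, p, r} : Set (EuclideanSpace ℝ (Fin 2))) = {p, r} := by simp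
        rw [this]
        exact collinear_pair ℝ p r
    · rw [collinear_iff_of_mem (p₀ := p) (by simp)]
      have hd : dt (hom p) (hom q) (hom r) =
          (q 0 - p 0) * (r 1 - p 1) - (q 1 - p 1) * (r 0 - p 0) := by
        simp only [dt, hom, Matrix.cons_val_zero, Matrix.cons_val_one, Matrix.cons_val]
        ring
      rw [hd]
      constructor
      · rintro ⟨v, hv⟩
        obtain ⟨s, hs⟩ := hv q (by simp)
        obtain ⟨t, ht⟩ := hv r (by simp)
        have q0 : q 0 = s * v 0 + p 0 := by rw [hs]; simp
        have q1 : q 1 = s * v 1 + p 1 := by rw [hs]; simp
        have r0 : r 0 = t * v 0 + p 0 := by rw [ht]; simp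
        have r1 : r 1 = t * v 1 + p 1 := by rw [ht]; simp
        rw [q0, q1, r0, r1]
        ring
      · intro h
        have hne : q 0 - p 0 ≠ 0 ∨ q 1 - p 1 ≠ 0 := by
          by_contra hcon
          push Not at hcon
          apply hpq
          ext i
          fin_cases i
          · simp; linarith [hcon.1]
          · simp; linarith [hcon.2]
        refine ⟨q - p, ?_⟩
        intro x hx
        simp only [Set.mem_insert_iff, Set.mem_singleton_iff] at hx
        rcases hx with rfl | rfl | rfl
        · exact ⟨0, by simp⟩
        · exact ⟨1, by simp⟩
        · rcases hne with h0 | h1
          · refine ⟨(x 0 - p 0) / (q 0 - p 0), ?_⟩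
            ext i
            fin_cases i
            · simp
              field_simp
              ring
            · simp
              field_simp
              linarith
          · refine ⟨(x 1 - p 1) / (q 1 - p 1), ?_⟩
            ext i
            fin_cases i
            · simp
              field_simp
              linarith
            · simp
              field_simp
              ring

end Pool.Agent.GTO.H5
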